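import Pool.Agent.Q250.SYM.Main

/-! The same with a gap: one graph has a `k`-clique, all cliques of the other one have fewer than
`63 k / 64` vertices. -/

set_option autoImplicit false

namespace Pool.Agent.Q250.SYM

open Finset Pool.Agent.W893.SY

/-- the number of small subsets -/
theorem small_sets (M t : ℕ) (ht : t ≤ M) :
    ((univ : Finset (Finset (Fin M))).filter (fun D => D.card ≤ t)).card * 16 ^ M ≤
      17 ^ M * 16 ^ t := by
  have h1 : ∑ D ∈ (univ : Finset (Fin M)).powerset, 1 ^ D.card * 16 ^ ((univ : Finset (Fin M)).card - D.card)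
      = (1 + 16) ^ (univ : Finset (Fin M)).card :=
    Finset.sum_pow_mul_eq_add_pow (1 : ℕ) 16 _
  rw [powerset_univ, card_univ, Fintype.card_fin] at h1
  simp only [one_pow, one_mul] at h1
  have h2 : ((univ : Finset (Finset (Fin M))).filter (fun D => D.card ≤ t)).card * 16 ^ (M - t) ≤
      17 ^ M := by
    calc _ = ∑ D ∈ (univ : Finset (Finset (Fin M))).filter (fun D => D.card ≤ t), 16 ^ (M - t) := by
          rw [sum_const, smul_eq_mul]
      _ ≤ ∑ D ∈ (univ : Finset (Finset (Fin M))).filter (fun D => D.card ≤ t), 16 ^ (M - D.card) := by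
          apply sum_le_sum
          intro D hD
          have := (mem_filter.1 hD).2
          exact Nat.pow_le_pow_right (by norm_num) (by omega)
      _ ≤ ∑ D : Finset (Fin M), 16 ^ (M - D.card) :=
          sum_le_sum_of_subset (filter_subset _ _)
      _ = 17 ^ M := h1
  calc _ = ((univ : Finset (Finset (Fin M))).filter (fun D => D.card ≤ t)).card * 16 ^ (M - t) *
        16 ^ t := by
        rw [mul_assoc, ← pow_add]
        congr 2
        omega
    _ ≤ 17 ^ M * 16 ^ t := Nat.mul_le_mul_right _ h2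

/-- right-hand sides that are far from all linear combinations -/
theorem exists_far {N M : ℕ} (ν : Fin M → Fin 3 → Fin N) (h : 4 * N ≤ M) (hM : 0 < M) :
    ∃ b : Fin M → ZMod 2, ∀ a : Fin 3 × Fin N → ZMod 2,
      M / 64 < (univ.filter fun c => ∑ i, a (i, ν c i) ≠ b c).card := by
  classical
  by_contra hcon
  push Not at hcon
  choose a ha using hcon
  set t := M / 64 with ht
  let ψ : (Fin M → ZMod 2) → (Fin 3 × Fin N → ZMod 2) ×
      {D : Finset (Fin M) // D.card ≤ t} := fun b => (a b, ⟨_, ha b⟩)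
  have hψ : Function.Injective ψ := by
    intro b b' hbb
    have e1 : a b = a b' := congrArg Prod.fst hbb
    have e2 : (univ.filter fun c => ∑ i, a b (i, ν c i) ≠ b c) =
        (univ.filter fun c => ∑ i, a b' (i, ν c i) ≠ b' c) := congrArg (fun q => q.2.1) hbb
    funext c
    have e3 : (∑ i, a b (i, ν c i) ≠ b c) ↔ (∑ i, a b' (i, ν c i) ≠ b' c) := by
      have := Finset.ext_iff.1 e2 c
      simpa using this
    rw [e1] at e3
    have h2 : ∀ u v w : ZMod 2, ((u ≠ v) ↔ (u ≠ w)) → v = w := by decide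
    exact h2 _ _ _ e3
  have hc := Fintype.card_le_of_injective ψ hψ
  simp only [Fintype.card_fun, Fintype.card_prod, Fintype.card_fin, ZMod.card] at hc
  have hcs : Fintype.card {D : Finset (Fin M) // D.card ≤ t} =
      ((univ : Finset (Finset (Fin M))).filter (fun D => D.card ≤ t)).card :=
    Fintype.card_subtype _
  rw [hcs] at hc
  have hsm := small_sets M t (Nat.div_le_self _ _)
  set A := ((univ : Finset (Finset (Fin M))).filter (fun D => D.card ≤ t)).card
  have h3 : 2 ^ M * 16 ^ M ≤ 2 ^ (3 * N) * (17 ^ M * 16 ^ t) :=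
    calc 2 ^ M * 16 ^ M ≤ 2 ^ (3 * N) * A * 16 ^ M := Nat.mul_le_mul_right _ hc
      _ = 2 ^ (3 * N) * (A * 16 ^ M) := mul_assoc _ _ _
      _ ≤ _ := Nat.mul_le_mul_left _ hsm
  have h4 := Nat.pow_le_pow_left h3 16
  have h5 : (2 ^ (3 * N) * (17 ^ M * 16 ^ t)) ^ 16 ≤ (2 ^ 13 * 17 ^ 16) ^ M := by
    calc (2 ^ (3 * N) * (17 ^ M * 16 ^ t)) ^ 16
        = 2 ^ (48 * N + 64 * t) * 17 ^ (16 * M) := by
          rw [mul_pow, mul_pow, ← pow_mul, ← pow_mul, ← pow_mul,
            show (16 : ℕ) = 2 ^ 4 by norm_num, ← pow_mul, pow_add]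
          ring
      _ ≤ 2 ^ (13 * M) * 17 ^ (16 * M) := by
          apply Nat.mul_le_mul_right
          apply Nat.pow_le_pow_right (by norm_num)
          have : 64 * t ≤ M := Nat.mul_div_le M 64
          omega
      _ = _ := by rw [mul_pow, ← pow_mul, ← pow_mul]
  have h6 : (2 ^ M * 16 ^ M) ^ 16 = (2 ^ 16 * 16 ^ 16) ^ M := by
    rw [mul_pow, mul_pow, ← pow_mul, ← pow_mul, ← pow_mul, ← pow_mul, Nat.mul_comm M 16]
  rw [h6] at h4
  have h7 : (2 ^ 13 * 17 ^ 16) ^ M < (2 ^ 16 * 16 ^ 16) ^ M :=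
    Nat.pow_lt_pow_left (by norm_num) hM.ne'
  exact absurd (h4.trans h5) (not_le.2 h7)

/-- cliques of the graph satisfy many constraints -/
theorem clique_small {M N n : ℕ} (ν : Fin M → Fin 3 → Fin N) (β : Fin M → Fin 3 → ZMod 2)
    (e : Fin M × Fin 5 ↪ Fin n) (t : ℕ)
    (hun : ∀ a : Fin 3 × Fin N → ZMod 2,
      t < (univ.filter fun c => ∑ i, a (i, ν c i) ≠ ∑ i, β c i).card)
    (S : Finset (Fin n)) (hS : (gr ν β e ∅).IsClique (S : Set (Fin n))) (h2 : 2 ≤ S.card) :
    S.card + t < M := by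
  classical
  rw [SimpleGraph.isClique_iff] at hS
  have hadj : ∀ z ∈ S, ∀ z' ∈ S, z ≠ z' → ∃ p p', z = e p ∧ z' = e p' ∧ cf ν β p p' := by
    intro z hz z' hz' hne
    have := (hS (mem_coe.2 hz) (mem_coe.2 hz') hne).2
    rcases this with h | h | h
    · exact absurd h (notMem_empty _)
    · exact absurd h (notMem_empty _)
    · exact h
  have hrep : ∀ z ∈ S, ∃ p : Fin M × Fin 5, z = e p ∧ p.2 ≠ 4 := by
    intro z hz
    obtain ⟨z', hz', hne⟩ := exists_mem_ne (s := S) (by omega) z
    obtain ⟨p, p', h1, _, h3⟩ := hadj z hz z' hz' hne.symm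
    exact ⟨p, h1, h3.2.1⟩
  obtain ⟨z₀, hz₀⟩ : S.Nonempty := card_pos.1 (by omega)
  obtain ⟨p₀, -, -⟩ := hrep z₀ hz₀
  have : Nonempty (Fin M × Fin 5) := ⟨p₀⟩
  choose! f hf hf4 using hrep
  have hinj : Set.InjOn (fun z => (f z).1) (S : Set (Fin n)) := by
    intro z hz z' hz' h
    by_contra hne
    obtain ⟨p, p', h1, h2, h3⟩ := hadj z hz z' hz' hne
    have e1 : p = f z := e.injective (h1.symm.trans (hf z hz))
    have e2 : p' = f z' := e.injective (h2.symm.trans (hf z' hz'))
    apply h3.1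
    rw [e1, e2]
    exact h
  have hcons : ∀ z ∈ S, ∀ z' ∈ S, ∀ i, ν (f z).1 i = ν (f z').1 i →
      vec (f z).2 i + β (f z).1 i = vec (f z').2 i + β (f z').1 i := by
    intro z hz z' hz' i hi
    by_cases hcc : z = z'
    · subst hcc; rfl
    · obtain ⟨p, p', h1, h2, h3⟩ := hadj z hz z' hz' hcc
      have e1 : p = f z := e.injective (h1.symm.trans (hf z hz))
      have e2 : p' = f z' := e.injective (h2.symm.trans (hf z' hz'))
      have h4 := h3.2.2.2 i (by rw [e1, e2]; exact hi)
      rw [e1, e2] at h4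
      exact h4
  have key := hun (fun p => if h : ∃ z ∈ S, ν (f z).1 p.1 = p.2 then
    vec (f h.choose).2 p.1 + β (f h.choose).1 p.1 else 0)
  have hsub : (univ.filter fun c => ∑ i, (fun p : Fin 3 × Fin N =>
      if h : ∃ z ∈ S, ν (f z).1 p.1 = p.2 then
        vec (f h.choose).2 p.1 + β (f h.choose).1 p.1 else 0) (i, ν c i) ≠ ∑ i, β c i) ⊆
      univ \ S.image (fun z => (f z).1) := by
    intro c hc
    rw [mem_sdiff]
    refine ⟨mem_univ _, fun hcS => ?_⟩
    rw [mem_image] at hcS
    obtain ⟨z, hz, rfl⟩ := hcS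
    apply (mem_filter.1 hc).2
    have h5 : ∀ i, (if h : ∃ z' ∈ S, ν (f z').1 i = ν (f z).1 i then
        vec (f h.choose).2 i + β (f h.choose).1 i else 0) = vec (f z).2 i + β (f z).1 i := by
      intro i
      have h : ∃ z' ∈ S, ν (f z').1 i = ν (f z).1 i := ⟨z, hz, rfl⟩
      rw [dif_pos h]
      exact hcons _ h.choose_spec.1 _ hz i h.choose_spec.2
    simp only [h5]
    rw [sum_add_distrib]
    have h6 := sum_vec (f z).2
    rw [Fin.sum_univ_three, h6, zero_add]
  have hcard := card_le_card hsub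
  rw [card_sdiff_of_subset (subset_univ _), card_image_of_injOn hinj, card_univ,
    Fintype.card_fin] at hcard
  have hSM : S.card ≤ M := by
    rw [← card_image_of_injOn hinj]
    calc _ ≤ (univ : Finset (Fin M)).card := card_le_card (subset_univ _)
      _ = M := by simp
  have h9 : t < M - S.card := lt_of_lt_of_le key hcard
  omega

/-- **One pair of graphs for all small symmetric circuits, with a gap.** -/
theorem clique_gap : ∃ K : ℕ, 0 < K ∧ ∀ k b κ : ℕ, 5 ≤ b → K * (κ + 1) < k →
    ∃ G H : SimpleGraph (Fin k × Fin b), Partite G ∧ Partite H ∧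
      (∃ S, G.IsNClique k S) ∧
      (∀ S : Finset (Fin k × Fin b), H.IsClique (S : Set (Fin k × Fin b)) →
        64 * S.card < 63 * k) ∧
      ∀ (R : Type) (z : Bool → R) (s : ℕ) (C : Net (Sym2 (Fin k × Fin b)) R s),
        s < b ^ (κ + 1) → (∀ γ, ∃ α, C.IsAut (actB γ) α) →
          C.val (inp z G) C.out = C.val (inp z H) C.out := by
  classical
  obtain ⟨K, hK, hexp⟩ := Pool.Agent.W45.SYExp.main 3 6 (by norm_num) (by norm_num)
  refine ⟨3600 * K, by positivity, ?_⟩
  intro M b κ hb hMbig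
  have hM4 : 3600 ≤ M := by
    have : 3600 * 1 * 1 ≤ 3600 * K * (κ + 1) :=
      Nat.mul_le_mul (Nat.mul_le_mul_left _ hK) (by omega)
    omega
  set N := M / 4 with hN
  have hN0 : 0 < N := by omega
  have h4N : 4 * N ≤ M := by omega
  have hMN : M ≤ 6 * N := by omega
  set r := 120 * (κ + 1) with hr
  have hKr : K * r ≤ N := by
    have h1 : 3600 * K * (κ + 1) = 30 * (K * r) := by rw [hr]; ring
    omega
  obtain ⟨ν, hν⟩ := hexp N M r hN0 hMN hKr
  obtain ⟨b', hb'⟩ := exists_far ν h4N (by omega)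
  set β : Fin M → Fin 3 → ZMod 2 := fun c i => if i = 0 then b' c else 0 with hβd
  have hβs : ∀ c, ∑ i, β c i = b' c := by
    intro c
    rw [hβd]
    simp
  have hβ : ∀ a : Fin 3 × Fin N → ZMod 2,
      M / 64 < (univ.filter fun c => ∑ i, a (i, ν c i) ≠ ∑ i, β c i).card := by
    intro a
    simp only [hβs]
    exact hb' a
  have hUn : ∀ z ∈ (∅ : Finset (Fin (M * b))), z ∉ Set.range (emb (k := M) hb) :=
    fun z hz => absurd hz (notMem_empty z)
  have hL := locally_gr Pool.Agent.W324.SY.main (K := 4 * κ) ν hν β (emb hb) ∅ hUn (by omega)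
    (by omega)
  refine ⟨(gr ν 0 (emb hb) ∅).comap (finProdFinEquiv : Fin M × Fin b ≃ Fin (M * b)),
    (gr ν β (emb hb) ∅).comap (finProdFinEquiv : Fin M × Fin b ≃ Fin (M * b)),
    partite_gr hb ν 0, partite_gr hb ν β, ?_, ?_, ?_⟩
  · rw [comap_clique]
    have := clique_gr ν hUn
    simpa using this
  · intro S hS
    by_cases h2 : 2 ≤ S.card
    · have h3 := clique_small ν β (emb hb) (M / 64) hβ
        (S.map (finProdFinEquiv : Fin M × Fin b ≃ Fin (M * b)).toEmbedding) (by
          intro x hx y hy hxy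
          simp only [coe_map, Set.mem_image, mem_coe] at hx hy
          obtain ⟨x', hx', rfl⟩ := hx
          obtain ⟨y', hy', rfl⟩ := hy
          exact hS hx' hy' (fun h => hxy (by rw [h]))) (by rw [card_map]; exact h2)
      rw [card_map] at h3
      omega
    · omega
  · intro R z s C hs hsym
    rw [inp_comap, inp_comap]
    have hP : commutator (alternatingGroup (Fin b)) = ⊤ :=
      commutator_alternatingGroup_eq_top (by simpa using hb)
    have hX := support hP b κ (by omega) (alt_index hb) C actB actB_one actB_mul hsym hs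
    have hL' := hL.pull (fun γ => actB (fun i => up hb (γ i))) lift (actL_lift hb) z
    refine core (act := fun γ : Fin M → A5 => actB (fun i => up hb (γ i))) ?_ hL' C κ
      (fun a => hsym _) ?_ le_rfl
    · intro a c
      rw [← actB_mul]
      congr 1
      funext i
      exact up_mul hb _ _
    · intro g
      obtain ⟨X, hXc, hXa⟩ := hX g
      refine ⟨X, hXc, fun a ha => hXa _ fun i hi => ?_⟩
      rw [ha i hi]
      exact up_one hb

end Pool.Agent.Q250.SYM
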