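import Mathlib

/-! Subgroups of small index of a power of a perfect group all of whose proper subgroups have large
index. -/

set_option autoImplicit false

namespace Pool.Agent.Q250.SYM

open Finset
open scoped commutatorElement

variable {m : ℕ} {P : Type} [Group P]

/-- the functions that are trivial outside of `J` -/
def supp (J : Finset (Fin m)) : Subgroup (Fin m → P) where
  carrier := {a | ∀ i, i ∉ J → a i = 1}
  mul_mem' := by
    intro a b ha hb i hi
    rw [Pi.mul_apply, ha i hi, hb i hi, mul_one]
  one_mem' := fun i _ => rfl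
  inv_mem' := by
    intro a ha i hi
    rw [Pi.inv_apply, ha i hi, inv_one]

theorem mem_supp {J : Finset (Fin m)} {a : Fin m → P} :
    a ∈ supp (P := P) J ↔ ∀ i, i ∉ J → a i = 1 := Iff.rfl

instance supp_normal (J : Finset (Fin m)) : (supp (P := P) J).Normal where
  conj_mem := by
    intro a ha g i hi
    rw [Pi.mul_apply, Pi.mul_apply, ha i hi, mul_one, Pi.inv_apply, mul_inv_cancel]

theorem single_mem (i : Fin m) (p : P) : Pi.mulSingle i p ∈ supp (P := P) {i} := by
  intro j hj
  exact Pi.mulSingle_eq_of_ne (M := fun _ : Fin m => P) (by simpa using hj) p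

theorem supp_mono {J J' : Finset (Fin m)} (h : J ⊆ J') : supp (P := P) J ≤ supp J' :=
  fun _ ha i hi => ha i (fun hj => hi (h hj))

theorem supp_insert (i : Fin m) (J : Finset (Fin m)) :
    supp (P := P) (insert i J) = supp J ⊔ supp {i} := by
  apply le_antisymm
  · intro a ha
    have h : a = (fun j => if j ∈ J then a j else 1) * (fun j => if j ∈ J then 1 else a j) := by
      funext j
      simp only [Pi.mul_apply]
      split_ifs <;> simp
    rw [h]
    apply Subgroup.mul_mem_sup
    · intro j hj
      simp [hj]
    · intro j hj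
      simp only
      split_ifs with h2
      · rfl
      · apply ha
        simp only [mem_insert, not_or]
        exact ⟨by simpa using hj, h2⟩
  · exact sup_le (supp_mono (subset_insert _ _)) (supp_mono (by simp))

theorem range_single (i : Fin m) :
    (MonoidHom.mulSingle (fun _ : Fin m => P) i).range = supp {i} := by
  ext a
  constructor
  · rintro ⟨p, rfl⟩
    exact single_mem i p
  · intro ha
    refine ⟨a i, ?_⟩
    funext j
    by_cases hj : j = i
    · subst hj
      simp
    · rw [ha j (by simpa using hj)]
      exact Pi.mulSingle_eq_of_ne hj _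

/-- A greedy choice of factors. -/
theorem greedy [Finite P] (B : ℕ) (hB : ∀ K : Subgroup P, K ≠ ⊤ → B ≤ K.index)
    (S : Subgroup (Fin m → P)) (T : Finset (Fin m)) :
    ∃ J ⊆ T, B ^ J.card * (S ⊔ supp J).index ≤ S.index ∧
      ∀ i ∈ T, supp {i} ≤ S ⊔ supp J := by
  classical
  induction T using Finset.induction_on with
  | empty =>
    refine ⟨∅, by simp, ?_, by simp⟩
    rw [card_empty, pow_zero, one_mul]
    exact Nat.le_of_dvd (Nat.pos_of_ne_zero Subgroup.FiniteIndex.index_ne_zero)
      (Subgroup.index_dvd_of_le le_sup_left)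
  | insert i T hi ih =>
    obtain ⟨J, hJT, hJ, hT⟩ := ih
    by_cases h : supp {i} ≤ S ⊔ supp J
    · refine ⟨J, hJT.trans (subset_insert _ _), hJ, fun j hj => ?_⟩
      rw [mem_insert] at hj
      rcases hj with rfl | hj
      · exact h
      · exact hT j hj
    · have hiJ : i ∉ J := fun hiJ => h ((supp_mono (by simpa using hiJ)).trans le_sup_right)
      refine ⟨insert i J, insert_subset_insert _ hJT, ?_, fun j hj => ?_⟩
      · have hle : S ⊔ supp J ≤ S ⊔ supp (insert i J) :=
          sup_le_sup_left (supp_mono (subset_insert _ _)) S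
        have h1 : B ≤ (S ⊔ supp J).relIndex (S ⊔ supp (insert i J)) := by
          have h2 : ((S ⊔ supp J).comap (MonoidHom.mulSingle (fun _ : Fin m => P) i)).index =
              (S ⊔ supp J).relIndex (supp {i}) := by
            rw [Subgroup.index_comap, range_single]
          have h3 : ((S ⊔ supp J).comap (MonoidHom.mulSingle (fun _ : Fin m => P) i)) ≠ ⊤ := by
            intro htop
            apply h
            rw [← range_single]
            rintro _ ⟨p, rfl⟩
            have : p ∈ (S ⊔ supp J).comap (MonoidHom.mulSingle (fun _ : Fin m => P) i) := by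
              rw [htop]; trivial
            exact this
          calc B ≤ _ := hB _ h3
            _ = _ := h2
            _ ≤ _ := Subgroup.relIndex_le_of_le_right
              ((supp_mono (by simp)).trans le_sup_right) (by
                rw [Subgroup.relIndex]
                exact Subgroup.FiniteIndex.index_ne_zero)
        rw [card_insert_of_notMem hiJ, pow_succ, mul_assoc]
        refine le_trans ?_ hJ
        apply Nat.mul_le_mul_left
        rw [← Subgroup.relIndex_mul_index hle]
        exact Nat.mul_le_mul_right _ h1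
      · rw [mem_insert] at hj
        rcases hj with rfl | hj
        · exact (supp_mono (by simp)).trans le_sup_right
        · exact (hT j hj).trans (sup_le_sup_left (supp_mono (subset_insert _ _)) S)

/-- **Subgroups of small index contain almost all factors.** -/
theorem small_index [Finite P] (hP : commutator P = ⊤) (B κ : ℕ) (hB2 : 2 ≤ B)
    (hB : ∀ K : Subgroup P, K ≠ ⊤ → B ≤ K.index)
    (S : Subgroup (Fin m → P)) (hS : S.index < B ^ (κ + 1)) :
    ∃ X : Finset (Fin m), X.card ≤ 2 * κ ∧ ∀ a : Fin m → P, (∀ i ∈ X, a i = 1) → a ∈ S := by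
  classical
  have hcard : ∀ J : Finset (Fin m), B ^ J.card * (S ⊔ supp J).index ≤ S.index → J.card ≤ κ := by
    intro J hJ
    have h0 : 1 ≤ (S ⊔ supp J).index := Nat.pos_of_ne_zero Subgroup.FiniteIndex.index_ne_zero
    have h1 : B ^ J.card < B ^ (κ + 1) :=
      calc B ^ J.card = B ^ J.card * 1 := (mul_one _).symm
        _ ≤ B ^ J.card * (S ⊔ supp J).index := Nat.mul_le_mul_left _ h0
        _ ≤ S.index := hJ
        _ < _ := hS
    have := (Nat.pow_lt_pow_iff_right (by omega : 1 < B)).1 h1
    omega
  obtain ⟨J₁, -, hJ₁, hT₁⟩ := greedy B hB S univ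
  obtain ⟨J₂, hJ₂T, hJ₂, hT₂⟩ := greedy B hB S (univ \ J₁)
  refine ⟨J₁ ∪ J₂, ?_, ?_⟩
  · have h1 := hcard J₁ hJ₁
    have h2 := hcard J₂ hJ₂
    have h3 := card_union_le J₁ J₂
    omega
  · have key : ∀ i, i ∉ J₁ ∪ J₂ → ∀ p : P, Pi.mulSingle i p ∈ S := by
      intro i hi
      rw [mem_union, not_or] at hi
      have hcomm : ∀ p p' : P, ⁅p, p'⁆ ∈ S.comap (MonoidHom.mulSingle (fun _ : Fin m => P) i) := by
        intro p p'
        obtain ⟨x, hx, u, hu, hxu⟩ := Subgroup.mem_sup_of_normal_right.1
          (hT₁ i (mem_univ i) (single_mem i p))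
        obtain ⟨y, hy, v, hv, hyv⟩ := Subgroup.mem_sup_of_normal_right.1
          (hT₂ i (by simp [hi.1]) (single_mem i p'))
        have hxe : x = Pi.mulSingle i p * u⁻¹ := by rw [← hxu]; simp
        have hye : y = Pi.mulSingle i p' * v⁻¹ := by rw [← hyv]; simp
        have h1 : ⁅x, y⁆ ∈ S := by
          rw [commutatorElement_def]
          exact S.mul_mem (S.mul_mem (S.mul_mem hx hy) (S.inv_mem hx)) (S.inv_mem hy)
        have h2 : ⁅x, y⁆ = Pi.mulSingle i ⁅p, p'⁆ := by
          funext j
          rw [commutatorElement_def, hxe, hye]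
          simp only [Pi.mul_apply, Pi.inv_apply]
          by_cases hj : j = i
          · subst hj
            rw [hu j hi.1, hv j hi.2]
            simp [commutatorElement_def]
          · rw [Pi.mulSingle_eq_of_ne hj, Pi.mulSingle_eq_of_ne hj, Pi.mulSingle_eq_of_ne hj]
            by_cases hj1 : j ∈ J₁
            · have : j ∉ J₂ := fun h => (mem_sdiff.1 (hJ₂T h)).2 hj1
              rw [hv j this]
              simp
            · rw [hu j hj1]
              simp
        rw [h2] at h1
        exact h1
      have htop : S.comap (MonoidHom.mulSingle (fun _ : Fin m => P) i) = ⊤ := by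
        rw [eq_top_iff, ← hP, commutator_def, Subgroup.commutator_le]
        intro p _ p' _
        exact hcomm p p'
      intro p
      have : p ∈ S.comap (MonoidHom.mulSingle (fun _ : Fin m => P) i) := by rw [htop]; trivial
      exact this
    intro a ha
    apply Subgroup.pi_mem_of_mulSingle_mem
    intro i
    by_cases hi : i ∈ J₁ ∪ J₂
    · rw [ha i hi, Pi.mulSingle_one]
      exact S.one_mem
    · exact key i hi _

end Pool.Agent.Q250.SYM
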