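import Pool.Agent.Q250.SYM.Sup
import Pool.Agent.W893.SY.Lower
import Pool.Agent.W324.SY.Loc
import Pool.Agent.W45.SYExp

/-! Two graphs, one with a `k`-clique and one without, that no small circuit symmetric under the even
permutations inside `k` classes of `b` vertices tells apart. -/

set_option autoImplicit false

namespace Pool.Agent.Q250.SYM

open Finset Pool.Agent.W893.SY

/-- `γ i` permutes the vertices `(i, v)` of the class `i` -/
def inside {k b : ℕ} (γ : Fin k → Equiv.Perm (Fin b)) (v : Fin k × Fin b) : Fin k × Fin b :=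
  (v.1, γ v.1 v.2)

theorem inside_one {k b : ℕ} : inside (1 : Fin k → Equiv.Perm (Fin b)) = id := rfl

theorem inside_mul {k b : ℕ} (a c : Fin k → Equiv.Perm (Fin b)) :
    inside (a * c) = inside a ∘ inside c := rfl

/-- the action of a power of the alternating group on pairs of vertices -/
def actB {k b : ℕ} (γ : Fin k → alternatingGroup (Fin b)) (e : Sym2 (Fin k × Fin b)) :
    Sym2 (Fin k × Fin b) :=
  e.map (inside fun i => (γ i : Equiv.Perm (Fin b)))

theorem actB_one {k b : ℕ} : actB (1 : Fin k → alternatingGroup (Fin b)) = id := by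
  funext e
  unfold actB
  have : (inside fun i => (((1 : Fin k → alternatingGroup (Fin b)) i) : Equiv.Perm (Fin b))) =
      id := rfl
  rw [this, Sym2.map_id]

theorem actB_mul {k b : ℕ} (a c : Fin k → alternatingGroup (Fin b)) :
    actB (a * c) = actB a ∘ actB c := by
  funext e
  unfold actB
  have : (inside fun i => (((a * c) i : alternatingGroup (Fin b)) : Equiv.Perm (Fin b))) =
      (inside fun i => (a i : Equiv.Perm (Fin b))) ∘ (inside fun i => (c i : Equiv.Perm (Fin b))) :=
    rfl
  rw [this, Sym2.map_comp]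

/-- an even permutation of five points as an even permutation of `b` points -/
noncomputable def up {b : ℕ} (hb : 5 ≤ b) (γ : A5) : alternatingGroup (Fin b) :=
  ⟨(γ : Equiv.Perm (Fin 5)).viaFintypeEmbedding (Fin.castLEEmb hb), by
    rw [Equiv.Perm.mem_alternatingGroup, Equiv.Perm.viaFintypeEmbedding_sign]
    exact Equiv.Perm.mem_alternatingGroup.1 γ.2⟩

theorem up_apply {b : ℕ} (hb : 5 ≤ b) (γ : A5) (j : Fin 5) :
    (up hb γ : Equiv.Perm (Fin b)) (Fin.castLE hb j) = Fin.castLE hb ((γ : Equiv.Perm (Fin 5)) j) :=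
  Equiv.Perm.viaFintypeEmbedding_apply_image _ _ _

theorem up_apply_of_notMem {b : ℕ} (hb : 5 ≤ b) (γ : A5) {v : Fin b}
    (hv : ∀ j : Fin 5, v ≠ Fin.castLE hb j) : (up hb γ : Equiv.Perm (Fin b)) v = v := by
  apply Equiv.Perm.viaFintypeEmbedding_apply_notMem_range
  rintro ⟨j, hj⟩
  exact hv j hj.symm

theorem up_one {b : ℕ} (hb : 5 ≤ b) : up hb 1 = 1 := by
  apply Subtype.ext
  apply Equiv.ext
  intro v
  by_cases h : ∃ j, v = Fin.castLE hb j
  · obtain ⟨j, rfl⟩ := h
    rw [up_apply]
    rfl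
  · push Not at h
    rw [up_apply_of_notMem hb _ h]
    rfl

theorem up_mul {b : ℕ} (hb : 5 ≤ b) (a c : A5) : up hb (a * c) = up hb a * up hb c := by
  apply Subtype.ext
  apply Equiv.ext
  intro v
  rw [Subgroup.coe_mul, Equiv.Perm.mul_apply]
  by_cases h : ∃ j, v = Fin.castLE hb j
  · obtain ⟨j, rfl⟩ := h
    rw [up_apply, up_apply, up_apply]
    rfl
  · push Not at h
    rw [up_apply_of_notMem hb _ h, up_apply_of_notMem hb _ h, up_apply_of_notMem hb _ h]

/-- five vertices of every class -/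
def emb {k b : ℕ} (hb : 5 ≤ b) : Fin k × Fin 5 ↪ Fin (k * b) :=
  ((Function.Embedding.refl (Fin k)).prodMap (Fin.castLEEmb hb)).trans
    finProdFinEquiv.toEmbedding

theorem emb_apply {k b : ℕ} (hb : 5 ≤ b) (c : Fin k) (j : Fin 5) :
    emb hb (c, j) = finProdFinEquiv (c, Fin.castLE hb j) := rfl

/-- the input variable `e` of the new circuits is this literal of the old ones -/
def lift {k b : ℕ} (e : Sym2 (Fin k × Fin b)) : Lit (k * b) := (e.map finProdFinEquiv, true)

theorem actL_lift {k b : ℕ} (hb : 5 ≤ b) (γ : Fin k → A5) (e : Sym2 (Fin k × Fin b)) :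
    actL (emb hb) γ (lift e) = lift (actB (fun i => up hb (γ i)) e) := by
  unfold actL lift actB
  simp only [Prod.mk.injEq, and_true]
  rw [Sym2.map_map, Sym2.map_map]
  congr 1
  funext v
  obtain ⟨c, v⟩ := v
  simp only [Function.comp_apply, inside]
  by_cases h : ∃ j, v = Fin.castLE hb j
  · obtain ⟨j, rfl⟩ := h
    rw [← emb_apply, blockPerm_apply, up_apply]
    rfl
  · push Not at h
    rw [up_apply_of_notMem hb _ h, blockPerm_of_notMem]
    rintro ⟨⟨c', j⟩, hj⟩
    rw [emb_apply] at hj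
    have := finProdFinEquiv.injective hj
    rw [Prod.mk.injEq] at this
    exact h j this.2.symm

/-- there are no edges inside the classes -/
def Partite {k b : ℕ} (G : SimpleGraph (Fin k × Fin b)) : Prop :=
  ∀ u v, G.Adj u v → u.1 ≠ v.1

open Classical in
/-- the input of the circuits -/
noncomputable def inp {k b : ℕ} {R : Type} (z : Bool → R) (G : SimpleGraph (Fin k × Fin b))
    (e : Sym2 (Fin k × Fin b)) : R := z (decide (e ∈ G.edgeSet))

theorem inp_comap {k b : ℕ} {R : Type} (z : Bool → R) (G : SimpleGraph (Fin (k * b))) :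
    inp z (G.comap (finProdFinEquiv : Fin k × Fin b ≃ Fin (k * b))) =
      fun e => z (lit G (lift e)) := by
  funext e
  unfold inp lit lift
  congr 1
  rw [decide_eq_decide]
  induction e using Sym2.ind with
  | h u v =>
    simp only [Sym2.map_mk, SimpleGraph.mem_edgeSet, SimpleGraph.comap_adj, iff_true]

theorem comap_clique {k b : ℕ} (G : SimpleGraph (Fin (k * b))) :
    (∃ S, (G.comap (finProdFinEquiv : Fin k × Fin b ≃ Fin (k * b))).IsNClique k S) ↔
      ∃ S, G.IsNClique k S := by
  classical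
  constructor
  · rintro ⟨S, hS⟩
    refine ⟨S.map (finProdFinEquiv : Fin k × Fin b ≃ Fin (k * b)).toEmbedding, ?_⟩
    rw [SimpleGraph.isNClique_iff] at hS ⊢
    refine ⟨?_, by rw [card_map]; exact hS.2⟩
    intro x hx y hy hxy
    simp only [coe_map, Set.mem_image, mem_coe] at hx hy
    obtain ⟨x', hx', rfl⟩ := hx
    obtain ⟨y', hy', rfl⟩ := hy
    exact hS.1 hx' hy' (fun h => hxy (by rw [h]))
  · rintro ⟨S, hS⟩
    refine ⟨S.map (finProdFinEquiv : Fin k × Fin b ≃ Fin (k * b)).symm.toEmbedding, ?_⟩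
    rw [SimpleGraph.isNClique_iff] at hS ⊢
    refine ⟨?_, by rw [card_map]; exact hS.2⟩
    intro x hx y hy hxy
    simp only [coe_map, Set.mem_image, mem_coe] at hx hy
    obtain ⟨x', hx', rfl⟩ := hx
    obtain ⟨y', hy', rfl⟩ := hy
    rw [SimpleGraph.comap_adj]
    have := hS.1 hx' hy' (fun h => hxy (by rw [h]))
    show G.Adj (finProdFinEquiv (finProdFinEquiv.symm x')) (finProdFinEquiv (finProdFinEquiv.symm y'))
    rw [Equiv.apply_symm_apply, Equiv.apply_symm_apply]
    exact this

theorem partite_gr {M N b : ℕ} (hb : 5 ≤ b) (ν : Fin M → Fin 3 → Fin N)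
    (β : Fin M → Fin 3 → ZMod 2) :
    Partite ((gr ν β (emb hb) ∅).comap (finProdFinEquiv : Fin M × Fin b ≃ Fin (M * b))) := by
  intro u v h
  rw [SimpleGraph.comap_adj] at h
  rcases h.2 with h | h | ⟨p, p', h1, h2, h3⟩
  · exact absurd h (notMem_empty _)
  · exact absurd h (notMem_empty _)
  · obtain ⟨c, j⟩ := p
    obtain ⟨c', j'⟩ := p'
    rw [emb_apply] at h1 h2
    have e1 := finProdFinEquiv.injective h1
    have e2 := finProdFinEquiv.injective h2
    rw [e1, e2]
    exact h3.1

/-- **One pair of graphs for all small symmetric circuits.** -/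
theorem clique_pair : ∃ K : ℕ, 0 < K ∧ ∀ k b κ : ℕ, 5 ≤ b → K * (κ + 1) < k →
    ∃ G H : SimpleGraph (Fin k × Fin b), Partite G ∧ Partite H ∧
      (∃ S, G.IsNClique k S) ∧ (¬ ∃ S, H.IsNClique k S) ∧
      ∀ (R : Type) (z : Bool → R) (s : ℕ) (C : Net (Sym2 (Fin k × Fin b)) R s),
        s < b ^ (κ + 1) → (∀ γ, ∃ α, C.IsAut (actB γ) α) →
          C.val (inp z G) C.out = C.val (inp z H) C.out := by
  classical
  obtain ⟨K, hK, hexp⟩ := Pool.Agent.W45.SYExp.main 3 6 (by norm_num) (by norm_num)
  refine ⟨3600 * K, by positivity, ?_⟩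
  intro M b κ hb hMbig
  have hM4 : 3600 ≤ M := by
    have : 3600 * 1 * 1 ≤ 3600 * K * (κ + 1) :=
      Nat.mul_le_mul (Nat.mul_le_mul_left _ hK) (by omega)
    omega
  set N := (M - 1) / 3 with hN
  have hN0 : 0 < N := by omega
  have h3N : 3 * N < M := by omega
  have hMN : M ≤ 6 * N := by omega
  set r := 120 * (κ + 1) with hr
  have hKr : K * r ≤ N := by
    have h1 : 3600 * K * (κ + 1) = 30 * (K * r) := by rw [hr]; ring
    omega
  obtain ⟨ν, hν⟩ := hexp N M r hN0 hMN hKr
  obtain ⟨β, hβ⟩ := exists_unsat ν h3N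
  have hUn : ∀ z ∈ (∅ : Finset (Fin (M * b))), z ∉ Set.range (emb (k := M) hb) :=
    fun z hz => absurd hz (notMem_empty z)
  have hL := locally_gr Pool.Agent.W324.SY.main (K := 4 * κ) ν hν β (emb hb) ∅ hUn (by omega)
    (by omega)
  refine ⟨(gr ν 0 (emb hb) ∅).comap (finProdFinEquiv : Fin M × Fin b ≃ Fin (M * b)),
    (gr ν β (emb hb) ∅).comap (finProdFinEquiv : Fin M × Fin b ≃ Fin (M * b)),
    partite_gr hb ν 0, partite_gr hb ν β, ?_, ?_, ?_⟩
  · rw [comap_clique]
    have := clique_gr ν hUn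
    simpa using this
  · rw [comap_clique]
    rintro ⟨S, hS⟩
    exact no_clique_gr ν β (e := emb hb) (Un := ∅) (by omega) hβ S (by simpa using hS)
  · intro R z s C hs hsym
    rw [inp_comap, inp_comap]
    have hP : commutator (alternatingGroup (Fin b)) = ⊤ :=
      commutator_alternatingGroup_eq_top (by simpa using hb)
    have hX := support hP b κ (by omega) (alt_index hb) C actB actB_one actB_mul hsym hs
    have hL' := hL.pull (fun γ => actB (fun i => up hb (γ i))) lift (actL_lift hb) z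
    refine core (act := fun γ : Fin M → A5 => actB (fun i => up hb (γ i))) ?_ hL' C κ
      (fun a => hsym _) ?_ le_rfl
    · intro a c
      rw [← actB_mul]
      congr 1
      funext i
      exact up_mul hb _ _
    · intro g
      obtain ⟨X, hXc, hXa⟩ := hX g
      refine ⟨X, hXc, fun a ha => hXa _ fun i hi => ?_⟩
      rw [ha i hi]
      exact up_one hb

end Pool.Agent.Q250.SYM
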