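import Pool.Agent.Q250.SYM.Grp
import Pool.Agent.W893.SY.Val
import Pool.Agent.W893.SY.Core

/-! Proper subgroups of alternating groups; supports of gates in circuits symmetric under powers of
perfect groups. -/

set_option autoImplicit false

namespace Pool.Agent.Q250.SYM

open Finset Pool.Agent.W893.SY

/-- proper subgroups of the alternating group of degree `b ≥ 5` have index at least `b` -/
theorem alt_index {b : ℕ} (hb : 5 ≤ b) (K : Subgroup (alternatingGroup (Fin b))) (hK : K ≠ ⊤) :
    b ≤ K.index := by
  classical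
  have hs : IsSimpleGroup (alternatingGroup (Fin b)) :=
    alternatingGroup.isSimpleGroup (by simpa using hb)
  have hnt : Nontrivial (Fin b) := Fin.nontrivial_iff_two_le.2 (by omega)
  by_contra hcon
  push Not at hcon
  have h := two_mul_nat_card_alternatingGroup (α := Fin b)
  rw [Nat.card_perm, Nat.card_eq_fintype_card (α := Fin b), Fintype.card_fin] at h
  have hN : K.normalCore = ⊥ ∨ K.normalCore = ⊤ :=
    Subgroup.Normal.eq_bot_or_eq_top inferInstance
  rcases hN with h1 | h1
  · have hinj : Function.Injective (MulAction.toPermHom (alternatingGroup (Fin b))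
        (alternatingGroup (Fin b) ⧸ K)) := by
      rw [← MonoidHom.ker_eq_bot_iff, ← Subgroup.normalCore_eq_ker, h1]
    have hc := Nat.card_le_card_of_injective _ hinj
    rw [Nat.card_perm] at hc
    have h2 : Nat.card (alternatingGroup (Fin b) ⧸ K) = K.index := rfl
    rw [h2] at hc
    have h3 : K.index.factorial ≤ (b - 1).factorial := Nat.factorial_le (by omega)
    have h4 : b.factorial = b * (b - 1).factorial := by
      obtain ⟨n, rfl⟩ : ∃ n, b = n + 1 := ⟨b - 1, by omega⟩
      rw [Nat.factorial_succ]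
      simp
    have h5 : 0 < (b - 1).factorial := Nat.factorial_pos _
    nlinarith
  · apply hK
    rw [eq_top_iff, ← h1]
    exact Subgroup.normalCore_le K

variable {I R P : Type} [Group P] {m s : ℕ}

/-- the group elements over which there is an automorphism fixing the gate `g` -/
def stab (C : Net I R s) (act : (Fin m → P) → I → I) (h1 : act 1 = id)
    (hmul : ∀ a b, act (a * b) = act a ∘ act b) (g : Fin s) : Subgroup (Fin m → P) where
  carrier := {a | ∃ α, C.IsAut (act a) α ∧ α g = g}
  one_mem' := ⟨1, by rw [h1]; exact Net.IsAut.one C, rfl⟩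
  mul_mem' := by
    rintro a b ⟨α, hα, hg⟩ ⟨β, hβ, hg'⟩
    refine ⟨α * β, ?_, ?_⟩
    · rw [hmul]
      exact hα.mul hβ
    · rw [Equiv.Perm.mul_apply, hg', hg]
  inv_mem' := by
    rintro a ⟨α, hα, hg⟩
    refine ⟨α⁻¹, hα.inv ?_, ?_⟩
    · rw [← hmul, inv_mul_cancel, h1]
    · rw [Equiv.Perm.inv_eq_iff_eq, hg]

theorem stab_index (C : Net I R s) (act : (Fin m → P) → I → I) (h1 : act 1 = id)
    (hmul : ∀ a b, act (a * b) = act a ∘ act b) (hsym : ∀ a, ∃ α, C.IsAut (act a) α) (g : Fin s) :
    (stab C act h1 hmul g).index ≤ s := by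
  classical
  choose α hα using hsym
  have hinj : Function.Injective (fun q : (Fin m → P) ⧸ stab C act h1 hmul g => α q.out g) := by
    intro q q' h
    simp only at h
    have h2 : (q.out : Fin m → P)⁻¹ * q'.out ∈ stab C act h1 hmul g := by
      refine ⟨(α q.out)⁻¹ * α q'.out, ?_, ?_⟩
      · rw [hmul]
        refine Net.IsAut.mul ((hα q.out).inv ?_) (hα q'.out)
        rw [← hmul, inv_mul_cancel, h1]
      · rw [Equiv.Perm.mul_apply, ← h]
        exact Equiv.symm_apply_apply _ _
    rw [← QuotientGroup.eq] at h2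
    simpa using h2
  have := Nat.card_le_card_of_injective _ hinj
  rw [Nat.card_eq_fintype_card (α := Fin s), Fintype.card_fin] at this
  exact this

/-- **Supports of gates.** -/
theorem support [Finite P] (hP : commutator P = ⊤) (B κ : ℕ) (hB2 : 2 ≤ B)
    (hB : ∀ K : Subgroup P, K ≠ ⊤ → B ≤ K.index)
    (C : Net I R s) (act : (Fin m → P) → I → I) (h1 : act 1 = id)
    (hmul : ∀ a b, act (a * b) = act a ∘ act b) (hsym : ∀ a, ∃ α, C.IsAut (act a) α)
    (hs : s < B ^ (κ + 1)) (g : Fin s) :
    ∃ X : Finset (Fin m), X.card ≤ 2 * κ ∧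
      ∀ a : Fin m → P, (∀ i ∈ X, a i = 1) → ∃ α, C.IsAut (act a) α ∧ α g = g :=
  small_index hP B κ hB2 hB (stab C act h1 hmul g)
    ((stab_index C act h1 hmul hsym g).trans_lt hs)

/-- local equivalence is inherited by other families of input variables -/
theorem _root_.Pool.Agent.W893.SY.Locally.pull [Fintype P] {I' R' : Type}
    {act : (Fin m → P) → I → I}
    {x y : I → R} {K : ℕ} {F : Finset (Fin m) → (Fin m → P) → Prop}
    (hL : Locally act x y K F) (act' : (Fin m → P) → I' → I') (j : I' → I)
    (hact : ∀ a i, act a (j i) = j (act' a i)) (φ : R → R') :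
    Locally act' (fun i => φ (x (j i))) (fun i => φ (y (j i))) K F where
  base := hL.base
  ext := hL.ext
  mono := hL.mono
  congr := hL.congr
  inp X δ i hF h := by
    have h2 := hL.inp X δ (j i) hF (by
      rintro c ⟨π, hπ⟩
      apply h c
      refine ⟨π, fun h3 => hπ ?_⟩
      rw [hact, h3])
    show φ (x (j i)) = φ (y (j (act' δ i)))
    rw [h2, hact]

end Pool.Agent.Q250.SYM
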